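import Pool.Agent.Helper28.TK.StN

/-!
# Project TK, module NR-H: the transformation of `Gp` under `-1/(3x)`
-/

set_option autoImplicit false

open Pool.Agent.Helper14.CV (G0 Homog EqC act StFar)
open Pool.Agent.Helper28.WK
open Pool.Agent.Helper14.WK

namespace Pool.Agent.Helper53.TKN

open Pool.Agent.Helper28.TH (OkH ALPlus)

open Pool.Agent.Helper28.LV Pool.Agent.Helper28.TK

private noncomputable def hP (a : ℕ) (Ψ : ℤ → ℤ → ℕ → ℂ) (r q : ℤ) : ℂ :=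
  ∑ t ∈ Finset.range (2 * a + 1), ((2 * a).choose t : ℂ) * (-(r : ℂ)) ^ (2 * a - t) * (q : ℂ) ^ t *
    Ψ r q t

private theorem hP_neg (a : ℕ) (Ψ : ℤ → ℤ → ℕ → ℂ)
    (hom : ∀ i : ℕ, i ≤ 2 * a → Homog (cp Ψ i)) (r q : ℤ) (h : r ≠ 0 ∨ q ≠ 0) :
    hP a Ψ (-r) (-q) = hP a Ψ r q := by
  unfold hP
  refine Finset.sum_congr rfl fun t ht => ?_
  have ht' : t ≤ 2 * a := by
    have := Finset.mem_range.1 ht
    omega
  have h1 : Ψ (-r) (-q) t = Ψ r q t := by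
    have := hom t ht' (-1) r q (by norm_num) h
    simpa [cp] using this
  rw [h1]
  push_cast
  have h2 : (- -(r : ℂ)) ^ (2 * a - t) * (-(q : ℂ)) ^ t =
      (-(r : ℂ)) ^ (2 * a - t) * (q : ℂ) ^ t := by
    rw [neg_pow (-(r : ℂ)) (2 * a - t), neg_pow (q : ℂ) t]
    have h3 : (-1 : ℂ) ^ (2 * a - t) * (-1) ^ t = 1 := by
      rw [← pow_add, Nat.sub_add_cancel ht', pow_mul]
      norm_num
    calc (-1 : ℂ) ^ (2 * a - t) * (-(r : ℂ)) ^ (2 * a - t) * ((-1) ^ t * (q : ℂ) ^ t)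
        = ((-1 : ℂ) ^ (2 * a - t) * (-1) ^ t) * ((-(r : ℂ)) ^ (2 * a - t) * (q : ℂ) ^ t) := by ring
      _ = _ := by rw [h3, one_mul]
  calc ((2 * a).choose t : ℂ) * (- -(r : ℂ)) ^ (2 * a - t) * (-(q : ℂ)) ^ t * Ψ r q t
      = ((2 * a).choose t : ℂ) * ((- -(r : ℂ)) ^ (2 * a - t) * (-(q : ℂ)) ^ t) * Ψ r q t := by ring
    _ = _ := by rw [h2]; ring

private theorem hP_S (a : ℕ) (Ψ : ℤ → ℤ → ℕ → ℂ) (c : ℕ → ℂ)
    (hS : ∀ t : ℕ, t ≤ 2 * a → ∀ x y : ℤ, (x ≠ 0 ∨ y ≠ 0) →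
      (3 : ℂ) ^ a * Ψ (-y) (3 * x) t = (-1) ^ t * 3 ^ (2 * a - t) * Ψ x y (2 * a - t) + c t)
    (r q : ℤ) (h : r ≠ 0 ∨ q ≠ 0) :
    (3 : ℂ) ^ a * hP a Ψ (-q) (3 * r) = (3 : ℂ) ^ (2 * a) * hP a Ψ r q +
      ∑ t ∈ Finset.range (2 * a + 1), ((2 * a).choose t : ℂ) * (q : ℂ) ^ (2 * a - t) *
        (3 * (r : ℂ)) ^ t * c t := by
  have e1 : (3 : ℂ) ^ a * hP a Ψ (-q) (3 * r) = ∑ t ∈ Finset.range (2 * a + 1),
      ((3 : ℂ) ^ (2 * a) * (((2 * a).choose t : ℂ) * (q : ℂ) ^ (2 * a - t) * (-(r : ℂ)) ^ t *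
        Ψ r q (2 * a - t)) +
      ((2 * a).choose t : ℂ) * (q : ℂ) ^ (2 * a - t) * (3 * (r : ℂ)) ^ t * c t) := by
    unfold hP
    rw [Finset.mul_sum]
    refine Finset.sum_congr rfl fun t ht => ?_
    have ht' : t ≤ 2 * a := by
      have := Finset.mem_range.1 ht
      omega
    have h1 := hS t ht' r q h
    have e3 : (3 : ℂ) ^ (2 * a) = 3 ^ (2 * a - t) * 3 ^ t := by
      rw [← pow_add, Nat.sub_add_cancel ht']
    rw [e3, neg_pow (r : ℂ) t]
    push_cast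
    rw [neg_neg, mul_pow]
    calc (3 : ℂ) ^ a * (((2 * a).choose t : ℂ) * (q : ℂ) ^ (2 * a - t) * (3 ^ t * (r : ℂ) ^ t) *
          Ψ (-q) (3 * r) t)
        = ((2 * a).choose t : ℂ) * (q : ℂ) ^ (2 * a - t) * (3 ^ t * (r : ℂ) ^ t) *
          ((3 : ℂ) ^ a * Ψ (-q) (3 * r) t) := by ring
      _ = _ := by rw [h1]; ring
  rw [e1, Finset.sum_add_distrib]
  congr 1
  rw [← Finset.mul_sum]
  congr 1
  rw [← Finset.sum_range_reflect]
  unfold hP
  refine Finset.sum_congr rfl fun t ht => ?_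
  have ht' : t ≤ 2 * a := by
    have := Finset.mem_range.1 ht
    omega
  have e2 : 2 * a + 1 - 1 - t = 2 * a - t := by omega
  have e3 : 2 * a - (2 * a - t) = t := by omega
  rw [e2, e3, Nat.choose_symm ht']
  ring

private theorem gp_cont (b1 : SKB1) (b3 : SKB3) (N p a : ℕ) (hne : NeZero N)
    (f : CuspForm (G0 N) (2 * a + 2)) (hp : p.Prime) (ha : 1 ≤ a) :
    Continuous (Gp p a f) := by
  obtain ⟨-, hc⟩ := b1 N hne a f (by omega)
  obtain ⟨-, -, hper⟩ := b3 N hne a f (by omega)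
  have hper' : Function.Periodic (HK a f) 1 := hper
  obtain ⟨C, hC⟩ : ∃ C : ℝ, ∀ x : ℝ, ‖HK a f x‖ ≤ C := by
    obtain ⟨C, hC⟩ := (isCompact_Icc (a := (0 : ℝ)) (b := 1)).exists_bound_of_continuousOn
      hc.continuousOn
    refine ⟨C, fun x => ?_⟩
    obtain ⟨y, hy, hxy⟩ := hper'.exists_mem_Ico₀ one_pos x
    rw [hxy]
    exact hC y ⟨hy.1, hy.2.le⟩
  have hC0 : 0 ≤ C := (norm_nonneg _).trans (hC 0)
  refine continuous_tsum (u := fun s : ℕ => (1 / 2 : ℝ) ^ s * (2 * C)) ?_ ?_ ?_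
  · intro s
    refine continuous_const.mul ?_
    exact (hc.comp (by fun_prop)).add (hc.comp (by fun_prop))
  · exact (summable_geometric_of_lt_one (by norm_num) (by norm_num)).mul_right _
  · intro s x
    rw [norm_mul, norm_inv, norm_pow, Complex.norm_natCast]
    have h1 : ((p : ℝ) ^ (a * s))⁻¹ ≤ (1 / 2 : ℝ) ^ s := by
      have hp2 : (2 : ℝ) ≤ p := by exact_mod_cast hp.two_le
      have h2 : (2 : ℝ) ^ s ≤ (p : ℝ) ^ (a * s) := by
        calc (2 : ℝ) ^ s ≤ (p : ℝ) ^ s := pow_le_pow_left₀ (by norm_num) hp2 s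
          _ ≤ (p : ℝ) ^ (a * s) := pow_le_pow_right₀ (by linarith) (by nlinarith)
      rw [one_div, inv_pow]
      exact inv_anti₀ (by positivity) h2
    have h3 : ‖HK a f ((p : ℝ) ^ s * x) + HK a f (-((p : ℝ) ^ s * x))‖ ≤ 2 * C :=
      (norm_add_le _ _).trans (by linarith [hC ((p : ℝ) ^ s * x), hC (-((p : ℝ) ^ s * x))])
    exact mul_le_mul h1 h3 (norm_nonneg _) (by positivity)

private theorem hTyW : HTy 0 (-1) 3 0 := by
  unfold HTy
  simp

/-- MODULE NR-H. -/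
theorem hNR : ZNR := by
  intro b1 b3 ns N p a hne κ f I Ψ hκ hp hev ha hI hinf hhom hL
  -- the constants
  have hS0 : ∀ t : ℕ, ∃ c : ℂ, t ≤ 2 * a → ∀ x y : ℤ, (x ≠ 0 ∨ y ≠ 0) →
      (3 : ℂ) ^ a * Ψ (-y) (3 * x) t = (-1) ^ t * 3 ^ (2 * a - t) * Ψ x y (2 * a - t) + c := by
    intro t
    by_cases ht : t ≤ 2 * a
    · obtain ⟨c, hc⟩ := hL.eqv 0 (-1) 3 0 hTyW t ht
      refine ⟨c, fun _ x y hxy => ?_⟩
      have h1 := hc x y hxy
      have e : (Polynomial.C (0 : ℤ) * Polynomial.X + Polynomial.C (-1)) ^ t *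
          (Polynomial.C (3 : ℤ) * Polynomial.X + Polynomial.C 0) ^ (2 * a - t) =
          ((-1 : ℤ) ^ t * 3 ^ (2 * a - t)) • (Polynomial.X : Polynomial ℤ) ^ (2 * a - t) := by
        rw [Polynomial.smul_eq_C_mul]
        simp [mul_pow, mul_assoc]
      rw [e, pr_smul, pr_X_pow] at h1
      simp only [act, cp, Pi.smul_apply, zsmul_eq_mul] at h1
      push_cast at h1
      have e2 : (0 * x + -1 * y) = -y := by ring
      have e3 : (3 * x + 0 * y) = 3 * x := by ring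
      rw [e2, e3] at h1
      exact h1
    · exact ⟨0, fun h => absurd h ht⟩
  choose c hc using hS0
  have hS : ∀ t : ℕ, t ≤ 2 * a → ∀ x y : ℤ, (x ≠ 0 ∨ y ≠ 0) →
      (3 : ℂ) ^ a * Ψ (-y) (3 * x) t = (-1) ^ t * 3 ^ (2 * a - t) * Ψ x y (2 * a - t) + c t :=
    fun t ht x y hxy => hc t ht x y hxy
  obtain ⟨K, hKd⟩ : ∃ K : ℂ, K = (κ : ℂ) * Complex.I := ⟨_, rfl⟩
  have hNS : ∀ r q : ℤ, 0 < q → hP a Ψ r q =
      K * (q : ℂ) ^ (2 * a) * Gp p a f ((r : ℝ) / (q : ℝ)) := by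
    intro r q hq
    rw [hKd]
    exact ns N p a hne κ f I Ψ hp hev ha hI hinf hhom hL r q hq
  set P : Polynomial ℂ := ∑ t ∈ Finset.range (2 * a + 1),
    Polynomial.C ((K * 3 ^ (2 * a))⁻¹ * (((2 * a).choose t : ℂ) * 3 ^ t * c t)) * Polynomial.X ^ t with hPd
  have hI4 : K ≠ 0 := by
    rw [hKd]
    exact mul_ne_zero (Int.cast_ne_zero.2 hκ) Complex.I_ne_zero
  have h22 : (3 : ℂ) ^ (2 * a) ≠ 0 := pow_ne_zero _ three_ne_zero
  refine ⟨P, ?_, ?_⟩
  · refine (Polynomial.natDegree_sum_le _ _).trans ?_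
    rw [Finset.fold_max_le]
    refine ⟨Nat.zero_le _, fun t ht => ?_⟩
    have := Finset.mem_range.1 ht
    exact (Polynomial.natDegree_C_mul_X_pow_le _ _).trans (by omega)
  · -- rational points
    have hrat : ∀ r q : ℤ, r ≠ 0 → 0 < q →
        (3 : ℂ) ^ a * ((((r : ℝ) / (q : ℝ) : ℝ)) : ℂ) ^ (2 * a) *
          Gp p a f (-1 / (3 * ((r : ℝ) / (q : ℝ)))) =
        Gp p a f ((r : ℝ) / (q : ℝ)) + P.eval ((((r : ℝ) / (q : ℝ) : ℝ)) : ℂ) := by
      intro r q hr hq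
      have hrR : (r : ℝ) ≠ 0 := by exact_mod_cast hr
      have hqR : (q : ℝ) ≠ 0 := by exact_mod_cast hq.ne'
      have hrC : (r : ℂ) ≠ 0 := by exact_mod_cast hr
      have hqC : (q : ℂ) ≠ 0 := by exact_mod_cast hq.ne'
      have h1 : hP a Ψ (-q) (3 * r) = K * (3 * (r : ℂ)) ^ (2 * a) *
          Gp p a f (-1 / (3 * ((r : ℝ) / (q : ℝ)))) := by
        rcases lt_or_gt_of_ne hr with hr' | hr'
        · have h2 := hP_neg a Ψ hL.hom (-q) (3 * r) (Or.inr (mul_ne_zero three_ne_zero hr))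
          rw [← h2, neg_neg, hNS q (-(3 * r)) (by omega)]
          have e1 : ((-(3 * r) : ℤ) : ℂ) ^ (2 * a) = (3 * (r : ℂ)) ^ (2 * a) := by
            push_cast
            rw [neg_pow, pow_mul (-1 : ℂ)]
            norm_num
          have e2 : (q : ℝ) / ((-(3 * r) : ℤ) : ℝ) = -1 / (3 * ((r : ℝ) / (q : ℝ))) := by
            push_cast
            field_simp
          rw [e1, e2]
        · rw [hNS (-q) (3 * r) (by omega)]
          have e2 : ((-q : ℤ) : ℝ) / ((3 * r : ℤ) : ℝ) = -1 / (3 * ((r : ℝ) / (q : ℝ))) := by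
            push_cast
            field_simp
          rw [e2]
          push_cast
          ring
      have h2 := hP_S a Ψ c hS r q (Or.inl hr)
      rw [h1, hNS r q hq] at h2
      have hPe : P.eval ((((r : ℝ) / (q : ℝ) : ℝ)) : ℂ) =
          (K * 3 ^ (2 * a) * (q : ℂ) ^ (2 * a))⁻¹ * ∑ t ∈ Finset.range (2 * a + 1),
            ((2 * a).choose t : ℂ) * (q : ℂ) ^ (2 * a - t) * (3 * (r : ℂ)) ^ t * c t := by
        rw [hPd, Polynomial.eval_finsetSum, Finset.mul_sum]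
        refine Finset.sum_congr rfl fun t ht => ?_
        have ht' : t ≤ 2 * a := by
          have := Finset.mem_range.1 ht
          omega
        rw [Polynomial.eval_mul, Polynomial.eval_C, Polynomial.eval_pow, Polynomial.eval_X]
        push_cast
        rw [div_pow, mul_pow]
        have e1 : (q : ℂ) ^ (2 * a) = (q : ℂ) ^ (2 * a - t) * (q : ℂ) ^ t := by
          rw [← pow_add, Nat.sub_add_cancel ht']
        rw [e1]
        field_simp
      rw [hPe]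
      push_cast
      rw [div_pow]
      have hq2 : (q : ℂ) ^ (2 * a) ≠ 0 := pow_ne_zero _ hqC
      have hKK : K * 3 ^ (2 * a) * (q : ℂ) ^ (2 * a) ≠ 0 := mul_ne_zero (mul_ne_zero hI4 h22) hq2
      refine mul_left_cancel₀ hKK ?_
      rw [mul_add, ← mul_assoc (K * 3 ^ (2 * a) * (q : ℂ) ^ (2 * a)) (_)⁻¹,
        mul_inv_cancel₀ hKK, one_mul]
      have e5 : K * 3 ^ (2 * a) * (q : ℂ) ^ (2 * a) * (3 ^ a * ((r : ℂ) ^ (2 * a) / (q : ℂ) ^ (2 * a)) *
          Gp p a f (-1 / (3 * ((r : ℝ) / (q : ℝ))))) =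
          3 ^ a * (K * (3 * (r : ℂ)) ^ (2 * a) * Gp p a f (-1 / (3 * ((r : ℝ) / (q : ℝ))))) := by
        rw [mul_pow]
        field_simp
      rw [e5, h2]
      ring
    -- continuity
    have hG := gp_cont b1 b3 N p a hne f hp ha
    have hsub : ({0}ᶜ : Set ℝ) ⊆ closure ({0}ᶜ ∩ Set.range ((↑) : ℚ → ℝ)) :=
      (Rat.denseRange_cast (𝕜 := ℝ)).open_subset_closure_inter isOpen_compl_singleton
    have hEq : Set.EqOn (fun x : ℝ => (3 : ℂ) ^ a * (x : ℂ) ^ (2 * a) * Gp p a f (-1 / (3 * x)))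
        (fun x : ℝ => Gp p a f x + P.eval (x : ℂ)) ({0}ᶜ : Set ℝ) := by
      refine Set.EqOn.of_subset_closure (s := {0}ᶜ ∩ Set.range ((↑) : ℚ → ℝ)) ?_ ?_ ?_
        Set.inter_subset_left hsub
      · rintro x ⟨hx0, y, rfl⟩
        have hy0 : y ≠ 0 := by
          intro h
          exact hx0 (by simp [h])
        have e : ((y : ℚ) : ℝ) = ((y.num : ℤ) : ℝ) / (((y.den : ℤ)) : ℝ) := by
          rw [Rat.cast_def]
          push_cast
          rfl
        have h := hrat y.num y.den (Rat.num_ne_zero.2 hy0) (by exact_mod_cast y.den_pos)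
        simp only
        rw [e]
        exact h
      · refine ContinuousOn.mul (by fun_prop) ?_
        refine hG.comp_continuousOn ?_
        exact continuousOn_const.div (continuousOn_const.mul continuousOn_id)
          (fun x hx => mul_ne_zero three_ne_zero hx)
      · refine (hG.continuousOn).add ?_
        exact (P.continuous.comp Complex.continuous_ofReal).continuousOn
    intro x hx
    exact hEq hx

end Pool.Agent.Helper53.TKN
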